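import Mathlib
import Pool.Agent.Helper499.Sep

open Set
open scoped ContDiff

namespace Pool.Agent.Results.MP_eebf92_an.AllOrdersFromTwo

/-- There is a separable real Banach space with an equivalent norm that is infinitely smooth away
from the origin, and a convex Lipschitz function on it which is at infinite uniform distance from
every convex function of class `C^2`. -/
theorem result :
    ∃ (X : Type) (_ : NormedAddCommGroup X) (_ : NormedSpace ℝ X) (_ : CompleteSpace X)
      (_ : TopologicalSpace.SeparableSpace X),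
      (∃ N : Seminorm ℝ X,
          (∃ c C : ℝ, 0 < c ∧ 0 < C ∧ ∀ x : X, c * ‖x‖ ≤ N x ∧ N x ≤ C * ‖x‖) ∧
          ContDiffOn ℝ ∞ (fun x : X => N x) ({0}ᶜ : Set X)) ∧
      ∃ f : X → ℝ, (∃ L, LipschitzWith L f) ∧ ConvexOn ℝ Set.univ f ∧
        ∀ φ : X → ℝ, ContDiff ℝ 2 φ → ConvexOn ℝ Set.univ φ →
          ∀ ε : ℝ, ∃ x : X, ε < |f x - φ x| := by
  refine ⟨Pool.Agent.Helper499.XX, inferInstance, inferInstance, inferInstance, inferInstance,
    Pool.Agent.Helper499.XX_smooth, Pool.Agent.Helper499.ff, ⟨_, Pool.Agent.Helper499.ff_lip⟩,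
    Pool.Agent.Helper499.ff_convex, ?_⟩
  intro φ hφ hconv ε
  by_contra hcon
  push Not at hcon
  exact Pool.Agent.Helper499.ff_no_approx φ hφ hconv ε hcon

end Pool.Agent.Results.MP_eebf92_an.AllOrdersFromTwo
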